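import Pool.Agent.Helper97.TN.St

set_option autoImplicit false

namespace Pool.Agent.Helper70.TN

open NumberField IsDedekindDomain Polynomial Filter Topology
open Pool.Agent.Helper97.TN Pool.Agent.Helper95.TT Pool.Agent.Helper24.TF
open scoped Classical

theorem hM1 (hA7 : StA7) (hF1 : StF1) (hF2 : StF2) (hQ3 : StQ3) : StM1 := by
  intro k _ _ m f hdeg hsep
  have hf0 : f ≠ 0 := by
    rintro rfl
    simp at hdeg
  obtain ⟨P, hP0, hP⟩ := hF2 k m f hf0 hsep
  obtain ⟨C, R₁, hC0, hR₁, hz⟩ := hF1 k m P hP0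
  have hfin : ∀ v : Pr k, Finite (Kv v) := by
    intro v
    apply Ideal.absNorm_ne_zero_iff _ |>.mp
    intro h0
    exact v.ne_bot (Ideal.absNorm_eq_zero_iff.mp h0)
  have hq : ∀ v : Pr k, (0 : ℝ) < (q v : ℝ) := by
    intro v
    have h0 : q v ≠ 0 := fun h => v.ne_bot (Ideal.absNorm_eq_zero_iff.mp h)
    exact_mod_cast Nat.pos_of_ne_zero h0
  have hcardv : ∀ v : Pr k, (Nat.card (Fin m → Kv v) : ℝ) = (q v : ℝ) ^ m := by
    intro v
    haveI := hfin v
    letI := Fintype.ofFinite (Kv v)
    have h1 : q v = Fintype.card (Kv v) := by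
      unfold q
      rw [Ideal.absNorm_apply, Submodule.cardQuot_apply, Nat.card_eq_fintype_card]
    rw [Nat.card_eq_fintype_card, Fintype.card_fun, Fintype.card_fin, h1]
    push_cast
    rfl
  set a : ∀ v : Pr k, (Fin m → Kv v) → ℝ := fun v y => (trF v (fib f v y) : ℝ) with ha
  have hab : ∀ v : Pr k, (2 : 𝓞 k) ∉ v.asIdeal → ∀ y, Good1 f v y → a v y ^ 2 ≤ 4 * q v := by
    intro v hv y hy
    have h1 := hQ3 k v hv (fib f v y) (by rw [hy.1, hdeg]) hy.2
    have h2 : |a v y| ≤ 2 * √(q v) := h1
    have h3 : √(q v : ℝ) ^ 2 = q v := Real.sq_sqrt (hq v).le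
    have h4 : |a v y| ^ 2 ≤ (2 * √(q v : ℝ)) ^ 2 := pow_le_pow_left₀ (abs_nonneg _) h2 2
    rw [sq_abs] at h4
    nlinarith
  refine ⟨fun v => if (2 : 𝓞 k) ∈ v.asIdeal then 1 else
    (∑ᶠ y : Fin m → Kv v, if Good1 f v y then (a v y ^ 2 - q v) / q v else 0) / (q v : ℝ) ^ m, C,
    R₁ ∪ {v | (2 : 𝓞 k) ∈ v.asIdeal}, hR₁.union ((hA7 k).1 2 two_ne_zero), ?_, ?_⟩
  · intro v
    by_cases hv : (2 : 𝓞 k) ∈ v.asIdeal
    · simp [hv]
    · simp only [hv, if_false]
      haveI := hfin v
      letI := Fintype.ofFinite (Kv v)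
      have hqm : (0 : ℝ) < (q v : ℝ) ^ m := pow_pos (hq v) m
      rw [finsum_eq_sum_of_fintype]
      have hN : (Fintype.card (Fin m → Kv v) : ℝ) = (q v : ℝ) ^ m := by
        rw [← hcardv v, Nat.card_eq_fintype_card]
      have h1 : ∑ y : Fin m → Kv v, (if Good1 f v y then (a v y ^ 2 - q v) / q v else 0) ≤
          3 * (q v : ℝ) ^ m := by
        calc _ ≤ ∑ y : Fin m → Kv v, (3 : ℝ) := by
              refine Finset.sum_le_sum (fun y _ => ?_)
              by_cases hy : Good1 f v y
              · rw [if_pos hy, div_le_iff₀ (hq v)]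
                have := hab v hv y hy
                linarith
              · rw [if_neg hy]
                norm_num
          _ = 3 * (q v : ℝ) ^ m := by
              rw [Finset.sum_const, Finset.card_univ, nsmul_eq_mul, hN]
              ring
      have h2 : -((q v : ℝ) ^ m) ≤
          ∑ y : Fin m → Kv v, (if Good1 f v y then (a v y ^ 2 - q v) / q v else 0) := by
        calc -((q v : ℝ) ^ m) = ∑ y : Fin m → Kv v, (-1 : ℝ) := by
              rw [Finset.sum_const, Finset.card_univ, nsmul_eq_mul, hN]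
              ring
          _ ≤ _ := by
              refine Finset.sum_le_sum (fun y _ => ?_)
              by_cases hy : Good1 f v y
              · rw [if_pos hy, le_div_iff₀ (hq v)]
                nlinarith [sq_nonneg (a v y)]
              · rw [if_neg hy]
                norm_num
      rw [abs_le]
      constructor
      · rw [neg_le_sub_iff_le_add]
        have : -1 ≤ (∑ y : Fin m → Kv v, (if Good1 f v y then (a v y ^ 2 - q v) / q v else 0)) /
            (q v : ℝ) ^ m := by
          rw [le_div_iff₀ hqm]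
          linarith
        linarith
      · have : (∑ y : Fin m → Kv v, (if Good1 f v y then (a v y ^ 2 - q v) / q v else 0)) /
            (q v : ℝ) ^ m ≤ 3 := by
          rw [div_le_iff₀ hqm]
          linarith
        linarith
  · intro v hv t t₂
    have hv1 : v ∉ R₁ := fun h => hv (Or.inl h)
    have hv2 : (2 : 𝓞 k) ∉ v.asIdeal := fun h => hv (Or.inr h)
    simp only [hv2, if_false]
    haveI := hfin v
    letI := Fintype.ofFinite (Kv v)
    have hqm : (0 : ℝ) < (q v : ℝ) ^ m := pow_pos (hq v) m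
    have hN : (Fintype.card (Fin m → Kv v) : ℝ) = (q v : ℝ) ^ m := by
      rw [← hcardv v, Nat.card_eq_fintype_card]
    unfold BN
    rw [finsum_eq_sum_of_fintype, finsum_eq_sum_of_fintype]
    -- number of bad points
    set bad : ℝ := ∑ y : Fin m → Kv v, (if Good1 f v y then (0 : ℝ) else 1) with hbad
    have hbad0 : 0 ≤ bad := by
      rw [hbad]
      refine Finset.sum_nonneg (fun y _ => ?_)
      split_ifs <;> norm_num
    have hbadq : bad * q v ≤ C * (q v : ℝ) ^ m := by
      refine le_trans ?_ (hz v hv1)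
      apply mul_le_mul_of_nonneg_right _ (hq v).le
      rw [Nat.card_eq_fintype_card, Fintype.card_subtype, hbad, Finset.card_filter]
      push_cast
      refine Finset.sum_le_sum (fun y _ => ?_)
      by_cases hy : val v y P = 0
      · rw [if_pos hy]
        split_ifs <;> norm_num
      · have : Good1 f v y := hP v y hy
        rw [if_neg hy, if_pos this]
    have hid : ∑ y : Fin m → Kv v, (if Good1 f v y then
        (((trF v (fib f v y) : ℝ) * t) ^ 2 - ((trF v (fib f v y) : ℝ) ^ 2 - 2 * q v) * t₂) / 2 else 0) =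
        q v * (((q v : ℝ) ^ m - bad) * ((t ^ 2 + t₂) / 2) +
          (∑ y : Fin m → Kv v, (if Good1 f v y then (a v y ^ 2 - q v) / q v else 0)) *
            ((t ^ 2 - t₂) / 2)) := by
      have e1 : (q v : ℝ) ^ m - bad = ∑ y : Fin m → Kv v, (if Good1 f v y then (1 : ℝ) else 0) := by
        rw [hbad, sub_eq_iff_eq_add, ← Finset.sum_add_distrib, ← hN, ← Finset.card_univ, Finset.card_eq_sum_ones]
        push_cast
        refine Finset.sum_congr rfl (fun y _ => ?_)
        split_ifs <;> norm_num
      rw [e1, Finset.sum_mul, Finset.sum_mul, ← Finset.sum_add_distrib, Finset.mul_sum]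
      refine Finset.sum_congr rfl (fun y _ => ?_)
      by_cases hy : Good1 f v y
      · simp only [hy, if_true]
        have hq0 : (q v : ℝ) ≠ 0 := (hq v).ne'
        simp only [ha]
        field_simp
        ring
      · simp only [hy, if_false]
        ring
    rw [hid]
    have e2 : q v * (((q v : ℝ) ^ m - bad) * ((t ^ 2 + t₂) / 2) +
          (∑ y : Fin m → Kv v, (if Good1 f v y then (a v y ^ 2 - q v) / q v else 0)) *
            ((t ^ 2 - t₂) / 2)) / (q v : ℝ) ^ m -
        q v * ((t ^ 2 + t₂) / 2 +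
          (∑ y : Fin m → Kv v, (if Good1 f v y then (a v y ^ 2 - q v) / q v else 0)) / (q v : ℝ) ^ m *
            ((t ^ 2 - t₂) / 2)) = -(bad * q v / (q v : ℝ) ^ m * ((t ^ 2 + t₂) / 2)) := by
      field_simp
      ring
    rw [e2, abs_neg, abs_mul]
    have h3 : |bad * q v / (q v : ℝ) ^ m| ≤ C := by
      rw [abs_of_nonneg (div_nonneg (mul_nonneg hbad0 (hq v).le) hqm.le), div_le_iff₀ hqm]
      exact hbadq
    have h4 : |(t ^ 2 + t₂) / 2| ≤ t ^ 2 + |t₂| := by
      rw [abs_le]
      have := neg_abs_le t₂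
      have := le_abs_self t₂
      have := sq_nonneg t
      have := abs_nonneg t₂
      constructor <;> linarith
    exact mul_le_mul h3 h4 (abs_nonneg _) hC0

end Pool.Agent.Helper70.TN
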