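import Pool.Agent.Helper97.TN.St

set_option autoImplicit false

namespace Pool.Agent.Helper70.TN

open NumberField IsDedekindDomain Polynomial Filter Topology
open Pool.Agent.Helper97.TN Pool.Agent.Helper95.TT Pool.Agent.Helper24.TF
open scoped Classical

private theorem two_le_q' {k : Type} [Field k] [NumberField k] (v : Pr k) : 2 ≤ q v := by
  have h0 : q v ≠ 0 := by
    intro h
    exact v.ne_bot (Ideal.absNorm_eq_zero_iff.mp h)
  have h1 : q v ≠ 1 := by
    intro h
    exact v.isPrime.ne_top (Ideal.absNorm_eq_one_iff.mp h)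
  omega

private theorem wt_nonneg {k : Type} [Field k] [NumberField k] (s : ℝ) (v : Pr k) : 0 ≤ wt s v := by
  unfold wt
  have h := two_le_q' v
  have h1 : (1 : ℝ) ≤ (q v : ℝ) := by exact_mod_cast (by omega : 1 ≤ q v)
  exact mul_nonneg (Real.log_nonneg h1) (Real.rpow_nonneg (by positivity) _)

private theorem wt_le_one {k : Type} [Field k] [NumberField k] (s : ℝ) (hs : 1 < s) (v : Pr k) :
    wt s v ≤ 1 := by
  unfold wt
  have h := two_le_q' v
  have h1 : (1 : ℝ) ≤ (q v : ℝ) := by exact_mod_cast (by omega : 1 ≤ q v)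
  have h0 : (0 : ℝ) < (q v : ℝ) := by linarith
  have h2 : Real.log (q v) ≤ (q v : ℝ) := by
    have := Real.log_le_sub_one_of_pos h0
    linarith
  have h3 : (q v : ℝ) ^ (-s) ≤ (q v : ℝ) ^ (-1 : ℝ) :=
    Real.rpow_le_rpow_of_exponent_le h1 (by linarith)
  have h4 : (q v : ℝ) ^ (-1 : ℝ) = (q v : ℝ)⁻¹ := by
    rw [Real.rpow_neg h0.le, Real.rpow_one]
  calc Real.log (q v) * (q v : ℝ) ^ (-s) ≤ (q v : ℝ) * (q v : ℝ)⁻¹ := by
        rw [h4] at h3
        exact mul_le_mul h2 h3 (Real.rpow_nonneg h0.le _) h0.le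
    _ = 1 := mul_inv_cancel₀ h0.ne'

private theorem wt_pow {k F : Type} [Field k] [NumberField k] [Field F] [NumberField F]
    (v : Pr k) (w : Pr F) (f N : ℕ) (hf : 2 ≤ f) (hN : f ≤ N) (h : q w = q v ^ f) (s : ℝ)
    (hs : 1 < s) : wt s w ≤ N * wt 2 v := by
  unfold wt
  have h2 := two_le_q' v
  have h1 : (1 : ℝ) ≤ (q v : ℝ) := by exact_mod_cast (by omega : 1 ≤ q v)
  have h0 : (0 : ℝ) < (q v : ℝ) := by linarith
  have hl : 0 ≤ Real.log (q v) := Real.log_nonneg h1
  rw [h]
  push_cast
  rw [Real.log_pow]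
  have e1 : ((q v : ℝ) ^ f) ^ (-s) = (q v : ℝ) ^ (-(f * s)) := by
    rw [← Real.rpow_natCast, ← Real.rpow_mul h0.le]
    ring_nf
  rw [e1]
  have hf2 : (2 : ℝ) ≤ (f : ℝ) := by exact_mod_cast hf
  have h3 : (q v : ℝ) ^ (-(f * s)) ≤ (q v : ℝ) ^ (-(2 : ℝ)) := by
    apply Real.rpow_le_rpow_of_exponent_le h1
    nlinarith
  have hN' : (f : ℝ) ≤ (N : ℝ) := by exact_mod_cast hN
  have h4 : 0 ≤ (q v : ℝ) ^ (-(2 : ℝ)) := Real.rpow_nonneg h0.le _
  calc (f : ℝ) * Real.log (q v) * (q v : ℝ) ^ (-(f * s))
      ≤ (N : ℝ) * Real.log (q v) * (q v : ℝ) ^ (-(2 : ℝ)) := by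
        apply mul_le_mul _ h3 (Real.rpow_nonneg h0.le _) (by positivity)
        exact mul_le_mul_of_nonneg_right hN' hl
    _ = N * (Real.log (q v) * (q v : ℝ) ^ (-(2 : ℝ))) := by ring

theorem hP2 (hA2 : StA2) (hP1 : StP1) : StP2 := by
  intro k _ _ P hmon hirr
  obtain ⟨F, _, _, π, N, R, hR, hqf, hfib, hnr⟩ := hP1 k P hmon hirr
  obtain ⟨hsF, hlF⟩ := hA2 F
  obtain ⟨hsk, -⟩ := hA2 k
  -- the constants
  set c : Pr k → ℝ := fun v => (N : ℝ) * N * wt 2 v + (if v ∈ R then (N : ℝ) + nr P v else 0) with hc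
  have hnr0 : ∀ v : Pr k, 0 ≤ nr P v := fun v => by unfold nr; positivity
  have hc0 : ∀ v, 0 ≤ c v := by
    intro v
    rw [hc]
    have h1 := wt_nonneg 2 v
    have h2 := hnr0 v
    by_cases h : v ∈ R
    · simp only [h, if_true]
      positivity
    · simp only [h, if_false]
      positivity
  have hcs : Summable c := by
    rw [hc]
    refine Summable.add ((hsk 2 (by norm_num)).mul_left _) ?_
    refine summable_of_hasFiniteSupport (hR.subset ?_)
    intro v hv
    by_contra h
    exact hv (by simp [h])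
  -- key estimate
  have key : ∀ (s : ℝ), 1 < s → ∀ v : Pr k,
      |∑' w : {w : Pr F // π w = v}, wt s w.1 - nr P v * wt s v| ≤ c v := by
    intro s hs v
    have hf := hfib v
    haveI : Finite {w : Pr F // π w = v} := hf.1.to_subtype
    letI : Fintype {w : Pr F // π w = v} := Fintype.ofFinite _
    rw [tsum_fintype]
    have hcardN : (Fintype.card {w : Pr F // π w = v} : ℝ) ≤ N := by
      have h1 : Fintype.card {w : Pr F // π w = v} = {w : Pr F | π w = v}.ncard := by
        rw [← Nat.card_eq_fintype_card]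
        rfl
      rw [h1]
      exact_mod_cast hf.2
    by_cases hv : v ∈ R
    · have h1 : ∑ w : {w : Pr F // π w = v}, wt s w.1 ≤ N := by
        calc ∑ w : {w : Pr F // π w = v}, wt s w.1 ≤ ∑ w : {w : Pr F // π w = v}, (1 : ℝ) :=
              Finset.sum_le_sum (fun w _ => wt_le_one s hs w.1)
          _ = Fintype.card {w : Pr F // π w = v} := by simp
          _ ≤ N := hcardN
      have h2 : 0 ≤ ∑ w : {w : Pr F // π w = v}, wt s w.1 :=
        Finset.sum_nonneg (fun w _ => wt_nonneg s w.1)
      have h3 : nr P v * wt s v ≤ nr P v := by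
        have := wt_le_one s hs v
        nlinarith [hnr0 v]
      have h4 : 0 ≤ nr P v * wt s v := mul_nonneg (hnr0 v) (wt_nonneg s v)
      have h5 : (N : ℝ) + nr P v ≤ c v := by
        rw [hc]
        simp only [hv, if_true]
        have := wt_nonneg 2 v
        have : 0 ≤ (N : ℝ) * N * wt 2 v := by positivity
        linarith
      rw [abs_le]
      constructor <;> nlinarith [hnr0 v]
    · have h0 : ∑ w : {w : Pr F // π w = v}, wt s w.1 =
          ∑ w ∈ Finset.univ.filter (fun w : {w : Pr F // π w = v} => q w.1 = q v), wt s w.1 +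
          ∑ w ∈ Finset.univ.filter (fun w : {w : Pr F // π w = v} => ¬ q w.1 = q v), wt s w.1 :=
        (Finset.sum_filter_add_sum_filter_not _ _ _).symm
      have h1 : ∑ w ∈ Finset.univ.filter (fun w : {w : Pr F // π w = v} => q w.1 = q v),
          wt s w.1 = nr P v * wt s v := by
        have e1 : ∀ w ∈ Finset.univ.filter (fun w : {w : Pr F // π w = v} => q w.1 = q v),
            wt s w.1 = wt s v := by
          intro w hw
          rw [Finset.mem_filter] at hw
          unfold wt
          rw [hw.2]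
        rw [Finset.sum_congr rfl e1, Finset.sum_const, nsmul_eq_mul, ← hnr v hv]
        congr 2
        rw [← Finset.card_map (Function.Embedding.subtype _), ← Set.ncard_coe_finset]
        congr 1
        ext w
        constructor
        · intro hw
          rw [Finset.mem_coe, Finset.mem_map] at hw
          obtain ⟨a, ha, rfl⟩ := hw
          exact ⟨a.2, (Finset.mem_filter.mp ha).2⟩
        · rintro ⟨h1, h2⟩
          rw [Finset.mem_coe, Finset.mem_map]
          exact ⟨⟨w, h1⟩, Finset.mem_filter.mpr ⟨Finset.mem_univ _, h2⟩, rfl⟩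
      have h2 : ∑ w ∈ Finset.univ.filter (fun w : {w : Pr F // π w = v} => ¬ q w.1 = q v),
          wt s w.1 ≤ N * (N * wt 2 v) := by
        have e1 : ∀ w ∈ Finset.univ.filter (fun w : {w : Pr F // π w = v} => ¬ q w.1 = q v),
            wt s w.1 ≤ N * wt 2 v := by
          intro w hw
          rw [Finset.mem_filter] at hw
          obtain ⟨f, hf1, hf2, hf3⟩ := hqf w.1
          rw [w.2] at hf3
          have hf4 : f ≠ 1 := by
            rintro rfl
            exact hw.2 (by simpa using hf3)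
          exact wt_pow v w.1 f N (by omega) hf2 hf3 s hs
        have hwt := wt_nonneg 2 v
        calc _ ≤ (Finset.univ.filter (fun w : {w : Pr F // π w = v} => ¬ q w.1 = q v)).card •
              (N * wt 2 v) := Finset.sum_le_card_nsmul _ _ _ e1
          _ = ((Finset.univ.filter (fun w : {w : Pr F // π w = v} => ¬ q w.1 = q v)).card : ℝ) *
              (N * wt 2 v) := by rw [nsmul_eq_mul]
          _ ≤ N * (N * wt 2 v) := by
              apply mul_le_mul_of_nonneg_right _ (by positivity)
              refine le_trans ?_ hcardN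
              exact_mod_cast Finset.card_le_univ _
      have h3 : 0 ≤ ∑ w ∈ Finset.univ.filter (fun w : {w : Pr F // π w = v} => ¬ q w.1 = q v),
          wt s w.1 := Finset.sum_nonneg (fun w _ => wt_nonneg s w.1)
      rw [h0, h1, add_sub_cancel_left, abs_of_nonneg h3]
      refine le_trans h2 ?_
      rw [hc]
      simp only [hv, if_false]
      apply le_of_eq
      ring
  -- grouping
  have group : ∀ s : ℝ, 1 < s → Summable (fun v : Pr k => ∑' w : {w : Pr F // π w = v}, wt s w.1) ∧
      ∑' w : Pr F, wt s w = ∑' v : Pr k, ∑' w : {w : Pr F // π w = v}, wt s w.1 := by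
    intro s hs
    have h1 : Summable (fun z : (Σ v : Pr k, {w : Pr F // π w = v}) => wt s z.2.1) := by
      have := (Equiv.sigmaFiberEquiv π).summable_iff.mpr (hsF s hs)
      exact this
    refine ⟨h1.sigma, ?_⟩
    rw [← h1.tsum_sigma, ← (Equiv.sigmaFiberEquiv π).tsum_eq (fun w => wt s w)]
    rfl
  have hnrs : ∀ s : ℝ, 1 < s → Summable (fun v : Pr k => nr P v * wt s v) := by
    intro s hs
    refine Summable.of_nonneg_of_le (fun v => mul_nonneg (hnr0 v) (wt_nonneg s v)) (fun v => ?_)
      ((group s hs).1.add hcs)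
    have := (abs_le.mp (key s hs v)).1
    linarith
  have hdiff : ∀ s : ℝ, 1 < s → |∑' w : Pr F, wt s w - ∑' v : Pr k, nr P v * wt s v| ≤ ∑' v, c v := by
    intro s hs
    rw [(group s hs).2, ← (group s hs).1.tsum_sub (hnrs s hs)]
    have h1 : Summable (fun v => |∑' w : {w : Pr F // π w = v}, wt s w.1 - nr P v * wt s v|) :=
      Summable.of_nonneg_of_le (fun v => abs_nonneg _) (key s hs) hcs
    calc _ ≤ ∑' v, |∑' w : {w : Pr F // π w = v}, wt s w.1 - nr P v * wt s v| := by
          have := norm_tsum_le_tsum_norm (f := fun v : Pr k =>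
            ∑' w : {w : Pr F // π w = v}, wt s w.1 - nr P v * wt s v) (by simpa using h1)
          simpa using this
      _ ≤ ∑' v, c v := h1.tsum_le_tsum (key s hs) hcs
  have hlim0 : Tendsto (fun s : ℝ => (s - 1) * (∑' w : Pr F, wt s w - ∑' v : Pr k, nr P v * wt s v))
      (𝓝[>] 1) (𝓝 0) := by
    rw [tendsto_zero_iff_norm_tendsto_zero]
    have h1 : Tendsto (fun s : ℝ => (s - 1) * ∑' v, c v) (𝓝[>] 1) (𝓝 0) := by
      have h2 : Tendsto (fun s : ℝ => (s - 1) * ∑' v, c v) (𝓝 1) (𝓝 ((1 - 1) * ∑' v, c v)) :=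
        ((continuous_id.sub continuous_const).mul continuous_const).tendsto 1
      simp only [sub_self, zero_mul] at h2
      exact h2.mono_left nhdsWithin_le_nhds
    refine squeeze_zero' (Eventually.of_forall (fun s => norm_nonneg _)) ?_ h1
    filter_upwards [self_mem_nhdsWithin] with s hs
    have hs1 : 1 < s := hs
    rw [norm_mul, Real.norm_eq_abs, Real.norm_eq_abs, abs_of_pos (by linarith : 0 < s - 1)]
    exact mul_le_mul_of_nonneg_left (hdiff s hs1) (by linarith)
  have hfin := hlF.sub hlim0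
  rw [sub_zero] at hfin
  refine hfin.congr (fun s => ?_)
  ring

end Pool.Agent.Helper70.TN
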