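import Pool.Agent.Helper97.TN.St

set_option autoImplicit false

namespace Pool.Agent.Helper70.TN

open NumberField IsDedekindDomain Polynomial Filter Topology
open Pool.Agent.Helper97.TN Pool.Agent.Helper95.TT Pool.Agent.Helper24.TF
open scoped Classical

private theorem pow_card_aux {k : Type} [Field k] [NumberField k] (v : Pr k) (x : Kv v) :
    x ^ q v = x := by
  haveI hM : v.asIdeal.IsMaximal := v.isMaximal
  letI : Field (𝓞 k ⧸ v.asIdeal) := Ideal.Quotient.field v.asIdeal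
  haveI hfin : Finite (𝓞 k ⧸ v.asIdeal) := by
    apply Ideal.absNorm_ne_zero_iff _ |>.mp
    intro h0
    exact v.ne_bot (Ideal.absNorm_eq_zero_iff.mp h0)
  letI : Fintype (𝓞 k ⧸ v.asIdeal) := Fintype.ofFinite _
  have h1 : q v = Fintype.card (𝓞 k ⧸ v.asIdeal) := by
    unfold q
    rw [Ideal.absNorm_apply, Submodule.cardQuot_apply, Nat.card_eq_fintype_card]
  rw [h1]
  exact FiniteField.pow_card x

private theorem two_le_q {k : Type} [Field k] [NumberField k] (v : Pr k) : 2 ≤ q v := by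
  have h0 : q v ≠ 0 := by
    intro h
    exact v.ne_bot (Ideal.absNorm_eq_zero_iff.mp h)
  have h1 : q v ≠ 1 := by
    intro h
    exact v.isPrime.ne_top (Ideal.absNorm_eq_one_iff.mp h)
  omega

private theorem range_aux {k L : Type} [Field k] [NumberField k] [Field L] [NumberField L]
    (v : Pr k) (V : Pr L) (ι : Kv v →+* Kv V) (hι : Function.Injective ι) (z : Kv V)
    (hz : z ^ q v = z) : ∃ x : Kv v, ι x = z := by
  haveI hM : V.asIdeal.IsMaximal := V.isMaximal
  letI : Field (𝓞 L ⧸ V.asIdeal) := Ideal.Quotient.field V.asIdeal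
  haveI hfin : Finite (𝓞 k ⧸ v.asIdeal) := by
    apply Ideal.absNorm_ne_zero_iff _ |>.mp
    intro h0
    exact v.ne_bot (Ideal.absNorm_eq_zero_iff.mp h0)
  letI : Fintype (𝓞 k ⧸ v.asIdeal) := Fintype.ofFinite _
  have h1 : q v = Fintype.card (𝓞 k ⧸ v.asIdeal) := by
    unfold q
    rw [Ideal.absNorm_apply, Submodule.cardQuot_apply, Nat.card_eq_fintype_card]
  set Q : (𝓞 L ⧸ V.asIdeal)[X] := X ^ q v - X with hQ
  have hq1 : 1 < q v := two_le_q v
  have hQ0 : Q ≠ 0 := FiniteField.X_pow_card_sub_X_ne_zero _ hq1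
  have hdeg : Q.natDegree = q v := FiniteField.X_pow_card_sub_X_natDegree_eq _ hq1
  have hroot : ∀ y : 𝓞 L ⧸ V.asIdeal, y ^ q v = y → y ∈ Q.roots.toFinset := by
    intro y hy
    rw [Multiset.mem_toFinset, mem_roots hQ0, IsRoot.def, hQ]
    simp [hy]
  have hsub : (Finset.univ.image fun x : 𝓞 k ⧸ v.asIdeal => ι x) ⊆ Q.roots.toFinset := by
    intro y hy
    obtain ⟨x, -, rfl⟩ := Finset.mem_image.mp hy
    apply hroot
    rw [← map_pow, pow_card_aux v x]
  have hcard : Q.roots.toFinset.card ≤ (Finset.univ.image fun x : 𝓞 k ⧸ v.asIdeal => ι x).card := by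
    rw [Finset.card_image_of_injective _ hι, Finset.card_univ, ← h1, ← hdeg]
    exact le_trans (Multiset.toFinset_card_le _) (Polynomial.card_roots' Q)
  have heq := Finset.eq_of_subset_of_card_le hsub hcard
  have hz' := hroot z hz
  rw [← heq] at hz'
  obtain ⟨x, -, hx⟩ := Finset.mem_image.mp hz'
  exact ⟨x, hx⟩

theorem hP4 : StP4 := by
  intro k L _ _ _ _ _ _ Ω _ _ θ P hinj hequi hP
  set δ : 𝓞 L := ∏ p ∈ (Finset.univ : Finset (Ω × Ω)).filter (fun p => p.1 ≠ p.2), (θ p.1 - θ p.2)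
    with hδ
  have hδ0 : δ ≠ 0 := by
    rw [hδ, Finset.prod_ne_zero_iff]
    intro p hp
    rw [Finset.mem_filter] at hp
    exact sub_ne_zero.mpr (fun h => hp.2 (hinj h))
  have hfin : {V : Pr L | δ ∈ V.asIdeal}.Finite := by
    have h0 : Ideal.span {δ} ≠ (0 : Ideal (𝓞 L)) := by
      simpa [Ideal.span_singleton_eq_bot] using hδ0
    refine (Ideal.finite_factors h0).subset ?_
    intro V hV
    exact Ideal.dvd_span_singleton.mpr hV
  refine ⟨⋃ V ∈ {V : Pr L | δ ∈ V.asIdeal},
    {v : Pr k | ∀ x : 𝓞 k, algebraMap (𝓞 k) (𝓞 L) x ∈ V.asIdeal ↔ x ∈ v.asIdeal}, ?_, ?_⟩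
  · refine Set.Finite.biUnion hfin (fun V _ => Set.Subsingleton.finite ?_)
    intro v hv v' hv'
    apply HeightOneSpectrum.ext
    ext x
    rw [← hv x, ← hv' x]
  · intro v hv g hg
    obtain ⟨V, hV, hfr⟩ := hg
    have hδV : δ ∉ V.asIdeal := by
      intro h
      exact hv (Set.mem_biUnion (show V ∈ {V : Pr L | δ ∈ V.asIdeal} from h) hV)
    have hle : v.asIdeal ≤ V.asIdeal.comap (algebraMap (𝓞 k) (𝓞 L)) := fun x hx => (hV x).mpr hx
    have hle' : V.asIdeal.comap (algebraMap (𝓞 k) (𝓞 L)) ≤ v.asIdeal := fun x hx => (hV x).mp hx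
    set ι : Kv v →+* Kv V := Ideal.quotientMap V.asIdeal (algebraMap (𝓞 k) (𝓞 L)) hle with hιdef
    have hι : Function.Injective ι := Ideal.quotientMap_injective' hle'
    have hιmk : ∀ a : 𝓞 k, ι (Ideal.Quotient.mk v.asIdeal a) =
        Ideal.Quotient.mk V.asIdeal (algebraMap (𝓞 k) (𝓞 L) a) := fun a => rfl
    have hθinj : Function.Injective (fun ω => Ideal.Quotient.mk V.asIdeal (θ ω)) := by
      intro ω ω' h
      by_contra hne
      apply hδV
      have h1 : θ ω - θ ω' ∈ V.asIdeal := by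
        rw [← Ideal.Quotient.eq_zero_iff_mem, map_sub]
        exact sub_eq_zero.mpr h
      have h2 : (θ ω - θ ω') ∣ δ := by
        rw [hδ]
        exact Finset.dvd_prod_of_mem (fun p : Ω × Ω => θ p.1 - θ p.2) (a := (ω, ω'))
          (Finset.mem_filter.mpr ⟨Finset.mem_univ _, hne⟩)
      obtain ⟨c, hc⟩ := h2
      rw [hc]
      exact V.asIdeal.mul_mem_right c h1
    haveI hM : V.asIdeal.IsPrime := V.isPrime
    have hroot : ∀ x : Kv v, (P.map (Ideal.Quotient.mk v.asIdeal)).eval x = 0 ↔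
        ∃ ω, Ideal.Quotient.mk V.asIdeal (θ ω) = ι x := by
      intro x
      have h1 : ι ((P.map (Ideal.Quotient.mk v.asIdeal)).eval x) =
          ∏ ω, (ι x - Ideal.Quotient.mk V.asIdeal (θ ω)) := by
        have h2 : (P.map (Ideal.Quotient.mk v.asIdeal)).map ι =
            (P.map (algebraMap (𝓞 k) (𝓞 L))).map (Ideal.Quotient.mk V.asIdeal) := by
          rw [Polynomial.map_map, Polynomial.map_map]
          congr 1
        rw [← Polynomial.eval₂_at_apply, ← Polynomial.eval_map, h2, hP, Polynomial.map_prod,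
          Polynomial.eval_prod]
        refine Finset.prod_congr rfl (fun ω _ => ?_)
        simp
      rw [← map_eq_zero_iff ι hι, h1, Finset.prod_eq_zero_iff]
      constructor
      · rintro ⟨ω, -, h⟩
        exact ⟨ω, (sub_eq_zero.mp h).symm⟩
      · rintro ⟨ω, h⟩
        exact ⟨ω, Finset.mem_univ _, sub_eq_zero.mpr h.symm⟩
    have hfrob : ∀ ω, Ideal.Quotient.mk V.asIdeal (θ (g • ω)) =
        Ideal.Quotient.mk V.asIdeal (θ ω) ^ q v := by
      intro ω
      have h1 := hfr (θ ω) (θ (g • ω)) (hequi g ω)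
      rw [← Ideal.Quotient.eq_zero_iff_mem, map_sub, map_pow] at h1
      exact sub_eq_zero.mp h1
    have hset : ι '' {x : Kv v | (P.map (Ideal.Quotient.mk v.asIdeal)).eval x = 0} =
        (fun ω => Ideal.Quotient.mk V.asIdeal (θ ω)) '' {ω : Ω | g • ω = ω} := by
      ext z
      constructor
      · rintro ⟨x, hx, rfl⟩
        obtain ⟨ω, hω⟩ := (hroot x).mp hx
        refine ⟨ω, ?_, hω⟩
        apply hθinj
        show Ideal.Quotient.mk V.asIdeal (θ (g • ω)) = Ideal.Quotient.mk V.asIdeal (θ ω)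
        rw [hfrob, hω, ← map_pow, pow_card_aux v x]
      · rintro ⟨ω, hω, rfl⟩
        have h1 : Ideal.Quotient.mk V.asIdeal (θ ω) ^ q v = Ideal.Quotient.mk V.asIdeal (θ ω) := by
          rw [← hfrob, show g • ω = ω from hω]
        obtain ⟨x, hx⟩ := range_aux v V ι hι _ h1
        exact ⟨x, (hroot x).mpr ⟨ω, hx.symm⟩, hx⟩
    unfold nr fx
    have e1 : Nat.card {x : Kv v // (P.map (Ideal.Quotient.mk v.asIdeal)).eval x = 0} =
        (ι '' {x : Kv v | (P.map (Ideal.Quotient.mk v.asIdeal)).eval x = 0}).ncard := by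
      rw [Set.ncard_image_of_injective _ hι]
      rfl
    have e2 : Nat.card {x : Ω // g • x = x} =
        ((fun ω => Ideal.Quotient.mk V.asIdeal (θ ω)) '' {ω : Ω | g • ω = ω}).ncard := by
      rw [Set.ncard_image_of_injective _ hθinj]
      rfl
    rw [e1, e2, hset]

end Pool.Agent.Helper70.TN
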